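import Pool.Agent.H7.KR.Stmts

set_option autoImplicit false

open Finset

namespace Pool.KR

open Pool.Agent.H23.KT Pool.Agent.H46.KW Pool.KQ

theorem arw (hCOV : COVStmt) (hNMS : NMSStmt) (hASM : ASMStmt) (hAMS : AMSStmt)
    (hNBR : NBRStmt) : ARWStmt := by
  classical
  intro p C ε hC hε
  obtain ⟨ε1, hε1, a₁, h1⟩ := hASM p C (ε / 2) hC (by positivity)
  obtain ⟨ε2, hε2, a₂, h2⟩ := hAMS p C (ε / 4) hC (by positivity)
  obtain ⟨a₃, h3⟩ := hNMS p C (min ε1 ε2) (lt_min hε1 hε2)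
  refine ⟨max (max a₁ a₂) (max a₃ (p + 2)), ?_⟩
  intro a ha V _ _ G hG v e P U hS he0 he1
  have ha1 : a ≥ a₁ := le_trans (le_trans (le_max_left _ _) (le_max_left _ _)) ha
  have ha2 : a ≥ a₂ := le_trans (le_trans (le_max_right _ _) (le_max_left _ _)) ha
  have ha3 : a ≥ a₃ := le_trans (le_trans (le_max_left _ _) (le_max_right _ _)) ha
  have ha4 : a ≥ p + 2 := le_trans (le_trans (le_max_right _ _) (le_max_right _ _)) ha
  have hdeg := hG.deg v
  have hehalf : e ≤ 1 / 2 := by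
    refine he1.trans ?_
    unfold e1
    have hp : (0 : ℝ) ≤ p := Nat.cast_nonneg p
    have h5 : (1 : ℝ) ≤ ((p : ℝ) + 3) ^ 3 := one_le_pow₀ (by linarith)
    rw [div_le_div_iff₀ (by positivity) (by norm_num)]
    linarith
  have hCB : CB G (nb G univ v) (p + 3) := CB.nb hG.cb (mem_univ v)
  have hex : ∀ z ∈ U, ∃ i, ((nb G (P i) z).card : ℝ) ≤ min ε1 ε2 * a := by
    intro z hz
    exact h3 a ha3 G e (nb G univ v) P U hS he0 hehalf hCB z ((hS.cov z).2 (Or.inl hz))
  choose! ι hι using hex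
  have haR : (0 : ℝ) ≤ a := Nat.cast_nonneg a
  have hι1 : ∀ z ∈ U, ((nb G (P (ι z)) z).card : ℝ) ≤ ε1 * a := fun z hz =>
    (hι z hz).trans (mul_le_mul_of_nonneg_right (min_le_left _ _) haR)
  have hι2 : ∀ z ∈ U, ((nb G (P (ι z)) z).card : ℝ) ≤ ε2 * a := fun z hz =>
    (hι z hz).trans (mul_le_mul_of_nonneg_right (min_le_right _ _) haR)
  -- the number of vertices
  have hWeq : nb G univ v = univ.biUnion P ∪ U := by
    ext u
    rw [hS.cov u, mem_union, mem_biUnion]
    constructor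
    · rintro (h | ⟨i, h⟩)
      · exact Or.inr h
      · exact Or.inl ⟨i, mem_univ i, h⟩
    · rintro (⟨i, _, h⟩ | h)
      · exact Or.inr ⟨i, h⟩
      · exact Or.inl h
  have hdisU : Disjoint (univ.biUnion P) U := by
    rw [disjoint_biUnion_left]
    intro i _
    exact hS.disU i
  have hcard : ∑ i, ((P i).card + (U.filter (fun z => ι z = i)).card) = (nb G univ v).card := by
    rw [hWeq, card_union_of_disjoint hdisU, card_biUnion (fun i _ j _ hij => hS.par.dis i j hij),
      sum_add_distrib]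
    congr 1
    exact (card_eq_sum_card_fiberwise (f := ι) (s := U) (t := univ) (fun z _ => mem_univ _)).symm
  obtain ⟨i, hi⟩ : ∃ i, (P i).card + (U.filter (fun z => ι z = i)).card ≤ a := by
    by_contra hcon
    push Not at hcon
    have : ∑ _i : Fin (p + 3), (a + 1) ≤
        ∑ i, ((P i).card + (U.filter (fun z => ι z = i)).card) :=
      sum_le_sum (fun i _ => hcon i)
    rw [sum_const, card_univ, Fintype.card_fin, smul_eq_mul] at this
    have h5 : (p + 3) * (a + 1) = (p + 3) * a + (p + 3) := by ring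
    omega
  have hsub : P i ∪ U.filter (fun z => ι z = i) ⊆ nb G univ v := by
    intro u hu
    rw [hS.cov u]
    rcases mem_union.1 hu with h | h
    · exact Or.inr ⟨i, h⟩
    · exact Or.inl (mem_filter.1 h).1
  have hcov := hCOV G p a v (P i ∪ U.filter (fun z => ι z = i)) ∅ hsub
  have hfil : (clq G (nb G univ v) (p + 3)).filter
      (fun L => ¬ (Disjoint L (∅ : Finset V) ∧ ¬ Disjoint L (P i ∪ U.filter (fun z => ι z = i))))
      = (clq G (nb G univ v) (p + 3)).filter
      (fun L => Disjoint L (P i ∪ U.filter (fun z => ι z = i))) := by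
    apply filter_congr
    intro L _
    constructor
    · intro h
      by_contra h'
      exact h ⟨disjoint_empty_right _, h'⟩
    · rintro h ⟨_, h'⟩
      exact h' h
  rw [hfil] at hcov
  have hA := h2 a ha2 G e (nb G univ v) P U hS hdeg ι hι2 i
  have hB := h1 a ha1 G hG v e P U hS he0 he1 i (U.filter (fun z => ι z = i)) (filter_subset _ _)
    (by
      intro z hz
      obtain ⟨hz1, hz2⟩ := mem_filter.1 hz
      have := hι1 z hz1
      rwa [hz2] at this) hi
  have hB' : ∑ u ∈ P i ∪ U.filter (fun z => ι z = i), ES G p a v u (co G v u \ ∅) ≤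
      ((a : ℝ) + ε / 2) * bal (p + 3) ((p + 3) * a + (p + 2)) := by
    simpa only [sdiff_empty] using hB
  obtain ⟨_, n2, _⟩ := hNBR
  have hM : (a : ℝ) ^ (p + 3) ≤ (bal (p + 3) ((p + 3) * a + (p + 2)) : ℝ) := by
    rw [n2 p a]
    push_cast
    rw [pow_succ' (a : ℝ) (p + 2)]
    exact mul_le_mul_of_nonneg_left (pow_le_pow_left₀ haR (by linarith) _) haR
  have hap : (a : ℝ) + p + 2 ≤ 2 * a := by
    have : ((p + 2 : ℕ) : ℝ) ≤ a := by exact_mod_cast ha4
    push_cast at this
    linarith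
  have hapos : (0 : ℝ) ≤ (a : ℝ) + p + 2 := by positivity
  have h6 : ((a : ℝ) + p + 2) * (((clq G (nb G univ v) (p + 3)).filter
      (fun L => Disjoint L (P i ∪ U.filter (fun z => ι z = i)))).card : ℝ) ≤
      ε / 2 * (a : ℝ) ^ (p + 3) := by
    calc ((a : ℝ) + p + 2) * (((clq G (nb G univ v) (p + 3)).filter
          (fun L => Disjoint L (P i ∪ U.filter (fun z => ι z = i)))).card : ℝ)
        ≤ ((a : ℝ) + p + 2) * (ε / 4 * (a : ℝ) ^ (p + 2)) :=
          mul_le_mul_of_nonneg_left hA hapos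
      _ ≤ (2 * a) * (ε / 4 * (a : ℝ) ^ (p + 2)) :=
          mul_le_mul_of_nonneg_right hap (by positivity)
      _ = ε / 2 * (a : ℝ) ^ (p + 3) := by ring
  have h7 : ε / 2 * (a : ℝ) ^ (p + 3) ≤
      ε / 2 * (bal (p + 3) ((p + 3) * a + (p + 2)) : ℝ) :=
    mul_le_mul_of_nonneg_left hM (by positivity)
  calc LS G p a v ≤ _ := hcov
    _ ≤ ((a : ℝ) + ε / 2) * bal (p + 3) ((p + 3) * a + (p + 2)) +
        ε / 2 * (bal (p + 3) ((p + 3) * a + (p + 2)) : ℝ) :=
        add_le_add hB' (h6.trans h7)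
    _ = ((a : ℝ) + ε) * bal (p + 3) ((p + 3) * a + (p + 2)) := by ring

end Pool.KR
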