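import Pool.Agent.H7.KR.Stmts

set_option autoImplicit false

open Finset

namespace Pool.KR

open Pool.Agent.H23.KT Pool.Agent.H46.KW Pool.KQ

theorem mee : MEEStmt := by
  classical
  intro V _ G p a e C W P U hS L hL
  rw [mem_clq] at hL
  obtain ⟨hLW, hLc, hLq⟩ := hL
  have hmem : ∀ u ∈ L \ U, ∃ i, u ∈ P i := by
    intro u hu
    rw [mem_sdiff] at hu
    rcases (hS.cov u).1 (hLW hu.1) with h | h
    · exact absurd h hu.2
    · exact h
  have hJ : (L \ U).card ≤ (univ.filter (fun i : Fin (p + 3) => ∃ u ∈ L, u ∈ P i)).card := by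
    choose! f hf using hmem
    apply card_le_card_of_injOn f
    · intro u hu
      have hu' : u ∈ L \ U := by simpa using hu
      rw [mem_coe, mem_filter]
      exact ⟨mem_univ _, u, (mem_sdiff.1 hu').1, hf u hu'⟩
    · intro u hu w hw huw
      have hu' : u ∈ L \ U := by simpa using hu
      have hw' : w ∈ L \ U := by simpa using hw
      by_contra hne
      have hadj : G.Adj u w := hLq (mem_coe.2 (mem_sdiff.1 hu').1) (mem_coe.2 (mem_sdiff.1 hw').1) hne
      have h2 := hf w hw'
      rw [← huw] at h2
      exact hS.par.ind (f u) u (hf u hu') w h2 hadj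
  have hc : L.card ≤ (L \ U).card + U.card := by
    have := card_sdiff_add_card L U
    have h2 := card_le_card (subset_union_left (s₁ := L) (s₂ := U))
    omega
  constructor
  · intro hd i
    have h1 : L \ U = L := sdiff_eq_self_of_disjoint hd
    rw [h1, hLc] at hJ
    have h2 : univ.filter (fun i : Fin (p + 3) => ∃ u ∈ L, u ∈ P i) = univ := by
      apply eq_univ_of_card
      apply le_antisymm
      · exact card_le_univ _
      · rw [Fintype.card_fin]; exact hJ
    have h3 : i ∈ univ.filter (fun i : Fin (p + 3) => ∃ u ∈ L, u ∈ P i) := by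
      rw [h2]; exact mem_univ i
    exact (mem_filter.1 h3).2
  · intro Z hZ
    by_contra hcon
    push Not at hcon
    have hdis : Disjoint Z (univ.filter (fun i : Fin (p + 3) => ∃ u ∈ L, u ∈ P i)) := by
      rw [disjoint_left]
      intro i hi hi2
      obtain ⟨u, hu, hui⟩ := (mem_filter.1 hi2).2
      exact hcon i hi u hu hui
    have h1 := card_union_of_disjoint hdis
    have h2 := card_le_univ (Z ∪ univ.filter (fun i : Fin (p + 3) => ∃ u ∈ L, u ∈ P i))
    rw [Fintype.card_fin, h1] at h2
    omega

end Pool.KR
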